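import Pool.Agent.Helper903.ES.Defs

set_option autoImplicit false

namespace ES903

open Finset

theorem E_first {V : Type*} [DecidableEq V] (R : Finset V) (φ : Finset V → ℚ) :
    ∑ x ∈ R, E (R.erase x) (fun S => φ (insert x S)) = (R.card : ℚ) * (E R φ - φ ∅) := by
  classical
  have h1 : ∀ x ∈ R, E (R.erase x) (fun S => φ (insert x S)) =
      ∑ T ∈ R.powerset.filter (fun T => x ∈ T), φ T / ((R.card - 1).choose (T.card - 1) : ℚ) := by
    intro x hx
    unfold E
    refine Finset.sum_bij' (fun S _ => insert x S) (fun T _ => T.erase x) ?_ ?_ ?_ ?_ ?_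
    · intro S hS
      rw [mem_powerset] at hS
      rw [mem_filter, mem_powerset]
      refine ⟨insert_subset hx (hS.trans (erase_subset _ _)), mem_insert_self _ _⟩
    · intro T hT
      rw [mem_filter, mem_powerset] at hT
      rw [mem_powerset]
      exact erase_subset_erase _ hT.1
    · intro S hS
      rw [mem_powerset] at hS
      exact erase_insert fun h => (mem_erase.1 (hS h)).1 rfl
    · intro T hT
      rw [mem_filter] at hT
      exact insert_erase hT.2
    · intro S hS
      rw [mem_powerset] at hS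
      have hxS : x ∉ S := fun h => (mem_erase.1 (hS h)).1 rfl
      rw [card_insert_of_notMem hxS, card_erase_of_mem hx, Nat.add_sub_cancel]
  rw [Finset.sum_congr rfl h1]
  have h2 : ∑ x ∈ R, ∑ T ∈ R.powerset.filter (fun T => x ∈ T),
      φ T / ((R.card - 1).choose (T.card - 1) : ℚ) =
      ∑ T ∈ R.powerset, ∑ x ∈ T, φ T / ((R.card - 1).choose (T.card - 1) : ℚ) := by
    refine Finset.sum_comm' fun x T => ?_
    rw [mem_filter, mem_powerset]
    constructor
    · rintro ⟨h, h', h''⟩; exact ⟨h'', h'⟩
    · rintro ⟨h, h'⟩; exact ⟨h' h, h', h⟩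
  rw [h2]
  have hmem : (∅ : Finset V) ∈ R.powerset := empty_mem_powerset _
  unfold E
  rw [← Finset.add_sum_erase _ _ hmem, ← Finset.add_sum_erase _ _ hmem]
  simp only [sum_empty, card_empty, Nat.choose_zero_right, Nat.cast_one, div_one, zero_add,
    add_sub_cancel_left]
  rw [Finset.mul_sum]
  refine Finset.sum_congr rfl fun T hT => ?_
  rw [mem_erase, mem_powerset] at hT
  have hT0 : 0 < T.card := card_pos.2 (nonempty_iff_ne_empty.2 hT.1)
  have hTR : T.card ≤ R.card := card_le_card hT.2
  rw [sum_const, nsmul_eq_mul]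
  obtain ⟨t, ht⟩ : ∃ t, T.card = t + 1 := ⟨T.card - 1, by omega⟩
  obtain ⟨r, hr⟩ : ∃ r, R.card = r + 1 := ⟨R.card - 1, by omega⟩
  rw [ht, hr, Nat.add_sub_cancel, Nat.add_sub_cancel]
  have hc1 : (0 : ℚ) < (r.choose t : ℚ) := by
    exact_mod_cast Nat.choose_pos (by omega)
  have hc2 : (0 : ℚ) < ((r + 1).choose (t + 1) : ℚ) := by
    exact_mod_cast Nat.choose_pos (by omega)
  have hid : ((r + 1 : ℕ) : ℚ) * (r.choose t : ℚ) = ((r + 1).choose (t + 1) : ℚ) * ((t + 1 : ℕ) : ℚ) := by
    exact_mod_cast Nat.add_one_mul_choose_eq r t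
  rw [← mul_div_assoc, ← mul_div_assoc, div_eq_div_iff hc1.ne' hc2.ne']
  linear_combination (-φ T) * hid

theorem E_last {V : Type*} [DecidableEq V] (R : Finset V) (φ : Finset V → ℚ) :
    ∑ x ∈ R, E (R.erase x) φ = (R.card : ℚ) * (E R φ - φ R) := by
  rcases Nat.eq_zero_or_pos R.card with h0 | h0
  · rw [Finset.card_eq_zero] at h0
    subst h0
    simp
  have h1 : ∑ x ∈ R, E (R.erase x) φ
      = ∑ x ∈ R, ∑ S ∈ (R.erase x).powerset, φ S / (((R.card - 1).choose S.card : ℕ) : ℚ) := by
    refine Finset.sum_congr rfl fun x hx => ?_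
    rw [E, Finset.card_erase_of_mem hx]
  rw [h1, Finset.sum_comm' (s' := fun S => R \ S) (t' := R.powerset)]
  swap
  · intro x S
    rw [Finset.mem_powerset, Finset.subset_erase, Finset.mem_sdiff, Finset.mem_powerset]
    tauto
  have h2 : ∀ S ∈ R.powerset, ∑ _x ∈ R \ S, φ S / (((R.card - 1).choose S.card : ℕ) : ℚ)
      = (R.card : ℚ) * (φ S / (R.card.choose S.card : ℚ)) -
        if S = R then (R.card : ℚ) * φ R else 0 := by
    intro S hS
    rw [Finset.mem_powerset] at hS
    rw [Finset.sum_const, nsmul_eq_mul, Finset.card_sdiff_of_subset hS]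
    have hle := Finset.card_le_card hS
    by_cases he : S = R
    · subst he
      simp
    · rw [if_neg he, sub_zero]
      have hlt : S.card < R.card := lt_of_le_of_ne hle fun h => he (Finset.eq_of_subset_of_card_le hS h.ge)
      obtain ⟨m, hm⟩ : ∃ m, R.card = m + 1 := ⟨R.card - 1, by omega⟩
      rw [hm, Nat.add_sub_cancel]
      have hsm : S.card ≤ m := by omega
      have hc1 : (0:ℚ) < (m.choose S.card : ℚ) := by exact_mod_cast Nat.choose_pos hsm
      have hc2 : (0:ℚ) < ((m + 1).choose S.card : ℚ) := by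
        exact_mod_cast Nat.choose_pos (by omega)
      have hk := Nat.choose_mul_succ_eq m S.card
      have hk' : (m.choose S.card : ℚ) * ((m + 1 : ℕ) : ℚ)
          = ((m + 1).choose S.card : ℚ) * ((m + 1 - S.card : ℕ) : ℚ) := by exact_mod_cast hk
      field_simp
      linear_combination (-φ S) * hk'
  rw [Finset.sum_congr rfl h2, Finset.sum_sub_distrib, ← Finset.mul_sum, Finset.sum_ite_eq',
    if_pos (Finset.mem_powerset_self R), E]
  ring

theorem E_up_fix {V : Type*} [DecidableEq V] (R : Finset V) (φ : Finset V → ℚ) {x : V}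
    (hx : x ∈ R) :
    E R φ - E R (fun S => φ (insert x S)) =
      (∑ S ∈ R.powerset, if x ∈ S then 0 else φ S / (R.card.choose S.card : ℚ)) -
      ∑ T ∈ R.powerset, if x ∈ T then φ T / (R.card.choose (T.card - 1) : ℚ) else 0 := by
  have h1 : ∑ S ∈ R.powerset.filter (fun S => x ∉ S), φ (insert x S) / (R.card.choose S.card : ℚ)
      = ∑ T ∈ R.powerset.filter (fun T => x ∈ T), φ T / (R.card.choose (T.card - 1) : ℚ) := by
    refine Finset.sum_bij' (fun S _ => insert x S) (fun T _ => T.erase x) ?_ ?_ ?_ ?_ ?_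
    · intro S hS
      rw [Finset.mem_filter, Finset.mem_powerset] at hS ⊢
      exact ⟨Finset.insert_subset hx hS.1, Finset.mem_insert_self _ _⟩
    · intro T hT
      rw [Finset.mem_filter, Finset.mem_powerset] at hT ⊢
      exact ⟨(Finset.erase_subset _ _).trans hT.1, Finset.notMem_erase _ _⟩
    · intro S hS
      rw [Finset.mem_filter] at hS
      exact Finset.erase_insert hS.2
    · intro T hT
      rw [Finset.mem_filter] at hT
      exact Finset.insert_erase hT.2
    · intro S hS
      rw [Finset.mem_filter] at hS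
      rw [Finset.card_insert_of_notMem hS.2, Nat.add_sub_cancel]
  have h2 : E R φ - E R (fun S => φ (insert x S))
      = ∑ S ∈ R.powerset.filter (fun S => x ∉ S),
        (φ S / (R.card.choose S.card : ℚ) - φ (insert x S) / (R.card.choose S.card : ℚ)) := by
    unfold E
    rw [← Finset.sum_sub_distrib, Finset.sum_filter]
    refine Finset.sum_congr rfl fun S _ => ?_
    by_cases hS : x ∈ S
    · rw [Finset.insert_eq_of_mem hS]
      simp [hS]
    · simp [hS]
  rw [h2, Finset.sum_sub_distrib, h1, Finset.sum_filter, Finset.sum_filter]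
  congr 1
  refine Finset.sum_congr rfl fun S _ => ?_
  by_cases hS : x ∈ S <;> simp [hS]

theorem E_up {V : Type*} [DecidableEq V] (R : Finset V) (φ : Finset V → ℚ) :
    ∑ x ∈ R, (E R φ - E R (fun S => φ (insert x S))) = ((R.card : ℚ) + 1) * φ ∅ - E R φ := by
  rw [Finset.sum_congr rfl (fun x hx => E_up_fix R φ hx), Finset.sum_sub_distrib,
    Finset.sum_comm, Finset.sum_comm (s := R), ← Finset.sum_sub_distrib]
  have key : ∀ S ∈ R.powerset,
      (∑ x ∈ R, if x ∈ S then (0 : ℚ) else φ S / (R.card.choose S.card : ℚ)) -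
        (∑ x ∈ R, if x ∈ S then φ S / (R.card.choose (S.card - 1) : ℚ) else 0)
      = (if S = ∅ then ((R.card : ℚ) + 1) * φ ∅ else 0) - φ S / (R.card.choose S.card : ℚ) := by
    intro S hS
    rw [Finset.mem_powerset] at hS
    have c1 : (R.filter (fun x => x ∈ S)).card = S.card := by
      congr 1
      ext y
      rw [Finset.mem_filter]
      exact ⟨fun h => h.2, fun h => ⟨hS h, h⟩⟩
    have c2 : ((R.filter (fun x => x ∉ S)).card : ℚ) = (R.card : ℚ) - S.card := by
      have h3 := Finset.card_filter_add_card_filter_not (s := R) (fun x => x ∈ S)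
      rw [c1] at h3
      have h4 : ((S.card : ℚ) + ((R.filter (fun x => x ∉ S)).card : ℚ)) = R.card := by
        exact_mod_cast h3
      linarith
    have s1 : (∑ x ∈ R, if x ∈ S then (0 : ℚ) else φ S / (R.card.choose S.card : ℚ))
        = ((R.card : ℚ) - S.card) * (φ S / (R.card.choose S.card : ℚ)) := by
      rw [← c2, ← nsmul_eq_mul, ← Finset.sum_const, Finset.sum_filter]
      refine Finset.sum_congr rfl fun y _ => ?_
      by_cases hy : y ∈ S <;> simp [hy]
    have s2 : (∑ x ∈ R, if x ∈ S then φ S / (R.card.choose (S.card - 1) : ℚ) else 0)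
        = (S.card : ℚ) * (φ S / (R.card.choose (S.card - 1) : ℚ)) := by
      rw [← Finset.sum_filter, Finset.sum_const, c1, nsmul_eq_mul]
    rw [s1, s2]
    by_cases h0 : S = ∅
    · subst h0
      simp
      ring
    · rw [if_neg h0]
      obtain ⟨k, hk⟩ : ∃ k, S.card = k + 1 := by
        have := Finset.card_pos.2 (Finset.nonempty_iff_ne_empty.2 h0)
        exact ⟨S.card - 1, by omega⟩
      have hle : k + 1 ≤ R.card := by rw [← hk]; exact Finset.card_le_card hS
      rw [hk, Nat.add_sub_cancel]
      have hA : (0 : ℚ) < (R.card.choose k : ℚ) := by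
        exact_mod_cast Nat.choose_pos (by omega)
      have hB : (0 : ℚ) < (R.card.choose (k + 1) : ℚ) := by
        exact_mod_cast Nat.choose_pos hle
      have hC : (R.card.choose (k + 1) : ℚ) * ((k : ℚ) + 1)
          = (R.card.choose k : ℚ) * ((R.card : ℚ) - k) := by
        have h5 := Nat.choose_succ_right_eq R.card k
        have h6 : ((R.card.choose (k + 1) * (k + 1) : ℕ) : ℚ)
          = ((R.card.choose k * (R.card - k) : ℕ) : ℚ) := by exact_mod_cast h5
        rw [Nat.cast_mul, Nat.cast_mul, Nat.cast_sub (by omega)] at h6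
        push_cast at h6
        exact h6
      have hD : ((k : ℚ) + 1) * (φ S / (R.card.choose k : ℚ))
          = ((R.card : ℚ) - k) * (φ S / (R.card.choose (k + 1) : ℚ)) := by
        rw [mul_div_assoc', mul_div_assoc', div_eq_div_iff hA.ne' hB.ne']
        linear_combination (φ S) * hC
      push_cast
      rw [hD]
      ring
  rw [Finset.sum_congr rfl key, Finset.sum_sub_distrib]
  unfold E
  congr 1
  rw [Finset.sum_ite_eq' R.powerset ∅ (fun _ => ((R.card : ℚ) + 1) * φ ∅)]
  simp

theorem E_down_coef (r t : ℕ) (h : t ≤ r) :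
    ((r:ℚ) - t) / (r.choose (t+1) : ℚ) - t / (r.choose t : ℚ) =
      1 / (r.choose t : ℚ) - (if t = r then (r:ℚ)+1 else 0) := by
  rcases h.eq_or_lt with rfl | h
  · simp
  · rw [if_neg h.ne]
    have h1 : (r.choose (t+1) : ℚ) * (t+1) = r.choose t * ((r:ℚ) - t) := by
      have := Nat.choose_succ_right_eq r t
      have h2 : ((r.choose (t+1) * (t+1) : ℕ) : ℚ) = ((r.choose t * (r - t) : ℕ) : ℚ) := by
        rw [this]
      push_cast [Nat.cast_sub h.le] at h2
      exact h2
    have h3 : (r.choose (t+1) : ℚ) ≠ 0 := by exact_mod_cast (Nat.choose_pos h).ne'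
    have h4 : (r.choose t : ℚ) ≠ 0 := by exact_mod_cast (Nat.choose_pos h.le).ne'
    field_simp
    linarith

theorem E_down_bij {V : Type*} [DecidableEq V] (R : Finset V) (φ : Finset V → ℚ) (x : V)
    (hx : x ∈ R) :
    ∑ S ∈ R.powerset with x ∈ S, φ (S.erase x) / (R.card.choose S.card : ℚ) =
      ∑ T ∈ R.powerset with x ∉ T, φ T / (R.card.choose (T.card + 1) : ℚ) := by
  apply Finset.sum_nbij' (fun S => S.erase x) (fun T => insert x T)
  · intro S hS
    simp only [mem_filter, mem_powerset] at hS ⊢
    exact ⟨(erase_subset _ _).trans hS.1, notMem_erase x S⟩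
  · intro T hT
    simp only [mem_filter, mem_powerset] at hT ⊢
    exact ⟨insert_subset hx hT.1, mem_insert_self x T⟩
  · intro S hS
    simp only [mem_filter, mem_powerset] at hS
    exact insert_erase hS.2
  · intro T hT
    simp only [mem_filter, mem_powerset] at hT
    exact erase_insert hT.2
  · intro S hS
    simp only [mem_filter, mem_powerset] at hS
    rw [card_erase_add_one hS.2]

theorem E_down_comm {V : Type*} [DecidableEq V] (R : Finset V) (p : V → Finset V → Prop)
    [∀ x S, Decidable (p x S)] (F : Finset V → ℚ) :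
    ∑ x ∈ R, ∑ S ∈ R.powerset with p x S, F S =
      ∑ S ∈ R.powerset, ((R.filter (fun x => p x S)).card : ℚ) * F S := by
  simp_rw [sum_filter]
  rw [sum_comm]
  apply sum_congr rfl
  intro S _
  rw [← sum_filter, sum_const, nsmul_eq_mul]

theorem E_down {V : Type*} [DecidableEq V] (R : Finset V) (φ : Finset V → ℚ) :
    ∑ x ∈ R, (E R (fun S => φ (S.erase x)) - E R φ) = E R φ - ((R.card : ℚ) + 1) * φ R := by
  have e1 : ∀ x ∈ R, E R (fun S => φ (S.erase x)) - E R φ =
      (∑ T ∈ R.powerset with x ∉ T, φ T / (R.card.choose (T.card + 1) : ℚ)) -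
        ∑ S ∈ R.powerset with x ∈ S, φ S / (R.card.choose S.card : ℚ) := by
    intro x hx
    rw [← E_down_bij R φ x hx]
    unfold E
    rw [← sum_filter_add_sum_filter_not R.powerset (fun S => x ∈ S)
      (fun S => φ (S.erase x) / (R.card.choose S.card : ℚ)),
      ← sum_filter_add_sum_filter_not R.powerset (fun S => x ∈ S)
      (fun S => φ S / (R.card.choose S.card : ℚ))]
    have e2 : ∑ S ∈ R.powerset with x ∉ S, φ (S.erase x) / (R.card.choose S.card : ℚ) =
        ∑ S ∈ R.powerset with x ∉ S, φ S / (R.card.choose S.card : ℚ) := by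
      apply sum_congr rfl
      intro S hS
      simp only [mem_filter] at hS
      rw [erase_eq_of_notMem hS.2]
    rw [e2]
    ring
  rw [sum_congr rfl e1, sum_sub_distrib, E_down_comm R (fun x T => x ∉ T),
    E_down_comm R (fun x T => x ∈ T), ← sum_sub_distrib]
  have e3 : ∀ T ∈ R.powerset,
      ((R.filter (fun x => x ∉ T)).card : ℚ) * (φ T / (R.card.choose (T.card + 1) : ℚ)) -
        ((R.filter (fun x => x ∈ T)).card : ℚ) * (φ T / (R.card.choose T.card : ℚ)) =
      φ T / (R.card.choose T.card : ℚ) - (if T = R then ((R.card : ℚ) + 1) * φ R else 0) := by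
    intro T hT
    rw [mem_powerset] at hT
    have h1 : R.filter (fun x => x ∈ T) = T := by
      ext x
      simp only [mem_filter]
      exact ⟨fun h => h.2, fun h => ⟨hT h, h⟩⟩
    have h2 : R.filter (fun x => x ∉ T) = R \ T := by
      ext x
      simp only [mem_filter, mem_sdiff]
    have h3 : ((R \ T).card : ℚ) = (R.card : ℚ) - T.card := by
      rw [card_sdiff_of_subset hT, Nat.cast_sub (card_le_card hT)]
    rw [h1, h2, h3]
    have h4 := E_down_coef R.card T.card (card_le_card hT)
    have h5 : (if T = R then ((R.card : ℚ) + 1) * φ R else 0) =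
        (if T.card = R.card then ((R.card : ℚ) + 1) else 0) * φ T := by
      by_cases hTR : T = R
      · subst hTR
        simp
      · rw [if_neg hTR, if_neg, zero_mul]
        intro hc
        exact hTR (eq_of_subset_of_card_le hT hc.ge)
    rw [h5]
    calc _ = (((R.card:ℚ) - T.card) / (R.card.choose (T.card+1) : ℚ) -
        T.card / (R.card.choose T.card : ℚ)) * φ T := by ring
      _ = _ := by rw [h4]; ring
  rw [sum_congr rfl e3, sum_sub_distrib]
  unfold E
  congr 1
  simp

end ES903
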